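import Pool.Agent.Q46.TdD

open Pool.Agent.Q46.Td

namespace Pool.Agent.Results.MP_e52bc6_co.SharpBound

/-- the set of total domination numbers of the connected claw-free diamond-free cubic graphs
of order `n` -/
def values (n : ℕ) : Set ℕ :=
  {k | ∃ (V : Type) (_ : Fintype V) (G : SimpleGraph V), Fintype.card V = n ∧ InC G ∧
    totalDominationNumber G = k}

/-- `g n`, the maximum total domination number in order `n` -/
noncomputable def g (n : ℕ) : ℕ := sSup (values n)

lemma six_dvd {n : ℕ} (hn : 5 ≤ n) (h : (values n).Nonempty) : 6 ∣ n := by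
  classical
  obtain ⟨k, V, _, G, hV, hG, _⟩ := h
  obtain ⟨Tri, _, _, S, hS⟩ := exists_TS hG (by omega)
  have h1 := S.card_V
  obtain ⟨j, hj⟩ := S.even_tri
  rw [hV, hj] at h1
  exact ⟨j, by omega⟩

lemma tdn_le {V : Type*} {G : SimpleGraph V} {D : Finset V} (hD : IsTotalDominating G D) :
    totalDominationNumber G ≤ D.card := Nat.sInf_le ⟨D, hD, rfl⟩

lemma upper {n k : ℕ} (hn : 5 ≤ n) (h : k ∈ values n) : k ≤ n / 3 + 2 * ((n / 3 + 2) / 12) := by
  classical
  obtain ⟨V, _, G, hV, hG, hk⟩ := h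
  obtain ⟨Tri, _, _, S, hS⟩ := exists_TS hG (by omega)
  have h1 := S.card_V
  obtain ⟨D, hD, hDc⟩ := S.upper (by rw [hS]; exact hG.connected)
  rw [hS] at hD
  have h2 := tdn_le hD
  have h3 : Fintype.card Tri = n / 3 := by omega
  rw [h3] at hDc
  omega

lemma greatest {n : ℕ} (hn : 30 ≤ n) (h6 : 6 ∣ n) : IsGreatest (values n) (n / 3 + 2 * ((n / 3 + 2) / 12)) := by
  classical
  refine ⟨?_, fun k hk => upper (by omega) hk⟩
  obtain ⟨j, hj⟩ := h6
  have h3 : n / 3 = 2 * j := by omega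
  obtain ⟨V, _, G, hV, hG, hlow⟩ := exists_extremal (2 * j) (even_two_mul j) (by omega)
  have hVn : Fintype.card V = n := by omega
  refine ⟨V, inferInstance, G, hVn, hG, ?_⟩
  rw [h3]
  apply le_antisymm
  · have := upper (n := n) (k := totalDominationNumber G) (by omega) ⟨V, inferInstance, G, hVn, hG, rfl⟩
    rwa [h3] at this
  · have hne : {k | ∃ S : Finset V, IsTotalDominating G S ∧ S.card = k}.Nonempty := by
      obtain ⟨Tri, _, _, S, hS⟩ := exists_TS hG (by omega)
      obtain ⟨D, hD, _⟩ := S.upper (by rw [hS]; exact hG.connected)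
      rw [hS] at hD
      exact ⟨_, D, hD, rfl⟩
    obtain ⟨D, hD, hDc⟩ := Nat.sInf_mem hne
    have := hlow D hD
    unfold totalDominationNumber
    omega

lemma g_eq {n : ℕ} (hn : 30 ≤ n) (h6 : 6 ∣ n) : g n = n / 3 + 2 * ((n / 3 + 2) / 12) :=
  (greatest hn h6).csSup_eq

/-- Total domination in connected claw-free diamond-free cubic graphs. Orders `n ≥ 30` occur iff
`6 ∣ n`, and then the maximum total domination number is exactly
`n / 3 + 2 * ⌊(n / 3 + 2) / 12⌋`; hence `c* = limsup g(n)/n = 7/18` (a limit). -/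
theorem result :
    (∀ n, 30 ≤ n → ((values n).Nonempty ↔ 6 ∣ n)) ∧
    (∀ n, 30 ≤ n → 6 ∣ n → IsGreatest (values n) (n / 3 + 2 * ((n / 3 + 2) / 12))) ∧
    (∀ n, 5 ≤ n → ∀ k ∈ values n, k ≤ n / 3 + 2 * ((n / 3 + 2) / 12)) ∧
    (Filter.atTop ⊓ Filter.principal {n | (values n).Nonempty}).NeBot ∧
    Filter.Tendsto (fun n => (g n : ℝ) / (n : ℝ))
      (Filter.atTop ⊓ Filter.principal {n | (values n).Nonempty}) (nhds (7 / 18)) ∧
    Filter.limsup (fun n => (g n : ℝ) / (n : ℝ))
      (Filter.atTop ⊓ Filter.principal {n | (values n).Nonempty}) = 7 / 18 := by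
  have h1 : ∀ n, 30 ≤ n → ((values n).Nonempty ↔ 6 ∣ n) := fun n hn =>
    ⟨fun h => six_dvd (by omega) h, fun h => ⟨_, (greatest hn h).1⟩⟩
  have hne : (Filter.atTop ⊓ Filter.principal {n | (values n).Nonempty}).NeBot := by
    rw [Filter.inf_principal_neBot_iff]
    intro U hU
    obtain ⟨N, hN⟩ := Filter.mem_atTop_sets.1 hU
    exact ⟨6 * (N + 5), hN _ (by omega), (h1 _ (by omega)).2 ⟨N + 5, rfl⟩⟩
  have hlim : Filter.Tendsto (fun n => (g n : ℝ) / (n : ℝ))
      (Filter.atTop ⊓ Filter.principal {n | (values n).Nonempty}) (nhds (7 / 18)) := by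
    have hb : ∀ᶠ n in (Filter.atTop ⊓ Filter.principal {n | (values n).Nonempty}),
        30 ≤ n ∧ 6 ∣ n := by
      rw [Filter.eventually_inf_principal]
      filter_upwards [Filter.eventually_ge_atTop 30] with n hn h
      exact ⟨hn, (h1 n hn).1 h⟩
    have hz : Filter.Tendsto (fun n : ℕ => (2 : ℝ) / (n : ℝ)) (Filter.atTop ⊓ Filter.principal {n | (values n).Nonempty})
        (nhds 0) :=
      ((tendsto_const_nhds (x := (2 : ℝ))).div_atTop tendsto_natCast_atTop_atTop).mono_left inf_le_left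
    have hlo : Filter.Tendsto (fun n : ℕ => (7 / 18 : ℝ) - (2 : ℝ) / (n : ℝ))
        (Filter.atTop ⊓ Filter.principal {n | (values n).Nonempty}) (nhds (7 / 18)) := by
      have := (tendsto_const_nhds (x := (7 / 18 : ℝ))).sub hz
      simpa using this
    have hup : Filter.Tendsto (fun n : ℕ => (7 / 18 : ℝ) + (2 : ℝ) / (n : ℝ))
        (Filter.atTop ⊓ Filter.principal {n | (values n).Nonempty}) (nhds (7 / 18)) := by
      have := (tendsto_const_nhds (x := (7 / 18 : ℝ))).add hz
      simpa using this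
    refine tendsto_of_tendsto_of_tendsto_of_le_of_le' hlo hup ?_ ?_
    · filter_upwards [hb] with n hn
      obtain ⟨hn, h6⟩ := hn
      rw [g_eq hn h6]
      have hn0 : (0 : ℝ) < n := by exact_mod_cast (by omega : 0 < n)
      obtain ⟨j, hj⟩ := h6
      have h3 : n / 3 = 2 * j := by omega
      rw [h3]
      have h4 : 12 * (2 * ((2 * j + 2) / 12)) + 24 ≥ 2 * (2 * j + 2) := by omega
      have h4' : (2 * (2 * (j : ℝ) + 2)) ≤ 12 * (2 * (((2 * j + 2) / 12 : ℕ) : ℝ)) + 24 := by
        exact_mod_cast h4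
      have h5 : (n : ℝ) = 6 * j := by rw [hj]; push_cast; ring
      rw [sub_le_iff_le_add, ← add_div, le_div_iff₀ hn0, h5]
      push_cast
      linarith
    · filter_upwards [hb] with n hn
      obtain ⟨hn, h6⟩ := hn
      rw [g_eq hn h6]
      have hn0 : (0 : ℝ) < n := by exact_mod_cast (by omega : 0 < n)
      obtain ⟨j, hj⟩ := h6
      have h3 : n / 3 = 2 * j := by omega
      rw [h3]
      have h4 : 12 * (2 * ((2 * j + 2) / 12)) ≤ 2 * (2 * j + 2) := by omega
      have h4' : 12 * (2 * (((2 * j + 2) / 12 : ℕ) : ℝ)) ≤ (2 * (2 * (j : ℝ) + 2)) := by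
        exact_mod_cast h4
      have h5 : (n : ℝ) = 6 * j := by rw [hj]; push_cast; ring
      rw [← sub_le_iff_le_add, ← sub_div, div_le_iff₀ hn0, h5]
      push_cast
      linarith
  exact ⟨h1, fun n hn h6 => greatest hn h6, fun n hn k hk => upper hn hk, hne, hlim, hlim.limsup_eq⟩

end Pool.Agent.Results.MP_e52bc6_co.SharpBound
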